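import Pool.Agent.H82.NTC.Stmts

set_option autoImplicit false

namespace Pool.NTC

open Pool.NET

theorem prm_rank (P : Type) [Finite P] [PartialOrder P] : ∃ (K : ℕ) (r : P → ℕ),
    (∀ z, r z < K) ∧ Function.Injective r ∧ ∀ z z', z < z' → r z < r z' := by
  classical
  haveI : Fintype P := Fintype.ofFinite P
  haveI : Fintype (LinearExtension P) := inferInstanceAs (Fintype P)
  let f := monoEquivOfFin (LinearExtension P) (rfl : Fintype.card (LinearExtension P) = _)
  refine ⟨Fintype.card (LinearExtension P), fun z => ((f.symm (toLinearExtension z) : Fin _) : ℕ),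
    fun z => (f.symm (toLinearExtension z)).2, ?_, ?_⟩
  · intro a b hab
    have h1 := Fin.ext hab
    have h2 := f.symm.injective h1
    exact h2
  · intro a b hab
    have h1 : toLinearExtension a ≤ toLinearExtension b := toLinearExtension.monotone hab.le
    have h2 : toLinearExtension a ≠ toLinearExtension b := by
      intro h
      exact hab.ne h
    have h3 : toLinearExtension a < toLinearExtension b := lt_of_le_of_ne h1 h2
    have h4 := f.symm.strictMono h3
    exact h4

theorem prm_thm : PRM_S := by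
  intro P _ _ T
  obtain ⟨K, r, hK, hinj, hlt⟩ := prm_rank P
  have hq : (0 : ℤ) < 8 * |T| + 1 := by positivity
  set q : ℤ := 8 * |T| + 1 with hqd
  have hqT : 8 * T < q := by
    have := le_abs_self T
    omega
  set W : ℤ := 10 * q * ((K : ℤ) + 2) with hW
  have hW0 : 0 < W := by positivity
  set E : ℤ := 8 * W with hE
  have hE0 : 0 < E := by positivity
  have step : ∀ z z', r z < r z' →
      4 * (E * 4 ^ (K - r z')) ≤ E * 4 ^ (K - r z) ∧
      10 * q * ((r z : ℤ) + 1) + 10 * q ≤ 10 * q * ((r z' : ℤ) + 1) := by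
    intro z z' h
    have h1 := hK z
    have h2 := hK z'
    constructor
    · have h3 : K - r z' + 1 ≤ K - r z := by omega
      have h4 : (4 : ℤ) ^ (K - r z' + 1) ≤ 4 ^ (K - r z) := pow_le_pow_right₀ (by norm_num) h3
      rw [pow_succ] at h4
      nlinarith [mul_le_mul_of_nonneg_left h4 hE0.le]
    · have h3 : (r z : ℤ) + 1 ≤ r z' := by exact_mod_cast h
      nlinarith
  refine ⟨⟨q, W, 5 * (E * 4 ^ K), 3 * (5 * (E * 4 ^ K))⟩, fun z => E * 4 ^ (K - r z),
    fun z => 10 * q * ((r z : ℤ) + 1), hqT, ?_, ?_, ?_⟩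
  · intro z
    have h1 : (r z : ℤ) < K := by exact_mod_cast hK z
    have h0 : (0 : ℤ) ≤ r z := by positivity
    refine ⟨hq, ?_, ?_, ?_, ?_, le_refl _⟩
    · show 10 * q ≤ 10 * q * ((r z : ℤ) + 1)
      nlinarith
    · show 10 * q * ((r z : ℤ) + 1) + 10 * q ≤ 10 * q * ((K : ℤ) + 2)
      nlinarith
    · show 8 * W ≤ E * 4 ^ (K - r z)
      have h2 : (1 : ℤ) ≤ 4 ^ (K - r z) := one_le_pow₀ (by norm_num)
      nlinarith
    · show 5 * (E * 4 ^ (K - r z)) ≤ 5 * (E * 4 ^ K)
      have h2 : (4 : ℤ) ^ (K - r z) ≤ 4 ^ K := pow_le_pow_right₀ (by norm_num) (by omega)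
      nlinarith
  · intro z z' h
    exact step z z' (hlt z z' h)
  · intro z z' h
    rcases lt_trichotomy (r z) (r z') with h1 | h1 | h1
    · right
      exact step z z' h1
    · exact absurd (hinj h1) h
    · left
      exact step z' z h1

end Pool.NTC
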