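import Pool.Agent.H82.NTC.Pot

/-!
# Board `ntc`, row PWNW
-/

set_option autoImplicit false

namespace Pool.NTC

open Pool.NET

theorem pwnw_tri (S a c : ℤ) (hS : 0 < S) : (c ≤ a - 1 ∧ S * c + S ≤ S * a) ∨
    c = a ∨ c = a + 1 ∨ (a + 2 ≤ c ∧ S * a + 2 * S ≤ S * c) := by
  have h1 : c ≤ a - 1 → S * c + S ≤ S * a := by
    intro h
    nlinarith [mul_le_mul_of_nonneg_left h hS.le]
  have h2 : a + 2 ≤ c → S * a + 2 * S ≤ S * c := by
    intro h
    nlinarith [mul_le_mul_of_nonneg_left h hS.le]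
  by_cases p1 : c ≤ a - 1
  · exact Or.inl ⟨p1, h1 p1⟩
  by_cases p2 : a + 2 ≤ c
  · exact Or.inr (Or.inr (Or.inr ⟨p2, h2 p2⟩))
  have : c = a ∨ c = a + 1 := by omega
  rcases this with h | h
  · exact Or.inr (Or.inl h)
  · exact Or.inr (Or.inr (Or.inl h))

theorem pwnw_thm : PWk Ke.NW := by
  classical
  intro p e g e' g' h u hP hP' hR tt htt v a s hs0 hs1 hlt
  obtain ⟨q0, gq, gW, We, eM, MS⟩ := hP
  obtain ⟨_, gq', gW', We', eM', _⟩ := hP'
  obtain ⟨a1, b1⟩ := v
  obtain ⟨⟨c, r⟩, k⟩ := a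
  have hS : 0 < p.S := by omega
  have hR' : e = e' ∨ 4 * e ≤ e' ∨ 4 * e' ≤ e := by
    rcases hR with hr | hr | hr
    · exact Or.inl hr.1
    · exact Or.inr (Or.inl hr.1)
    · exact Or.inr (Or.inr hr.1)
  have eS : p.S * (b1 + 1) = p.S * b1 + p.S := by ring
  have htri := pwnw_tri p.S b1 r hS
  by_cases hu : u (a1, b1)
  · have e0 : pv2 h u ((a1, b1), Ke.NW) = ((a1, b1 + 1), Ke.J3) := by
      simp only [pv2, hu, if_true]
    obtain ⟨t0, t1⟩ := htt ((a1, b1 + 1), Ke.J3)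
    have e1 : prW p e h u tt ((a1, b1), Ke.NW) =
        2 * (p.S * b1 + p.S - e + (p.S * b1 + e) + 2 * p.q) + 1 := by
      simp only [prW, e0, fy, eS]
    rw [e1, e0] at hlt
    rw [e0]
    generalize tt ((a1, b1 + 1), Ke.J3) = t at *
    simp only [fy, eS] at hlt
    obtain ⟨Y, hY⟩ : ∃ Y : ℤ, fy p e' ((c, r), k) + s = Y := ⟨_, rfl⟩
    have hY2 : p.S * b1 + e + 2 * p.q - t < Y ∧ Y < p.S * b1 + p.S - e + t := by
      have hneg : 2 * (p.S * b1 + p.S - e + (p.S * b1 + e) + 2 * p.q) + 1 -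
          4 * (p.S * b1 + p.S - e + t) < 0 := by
        generalize p.S * b1 = B at *
        omega
      rw [abs_of_neg hneg, abs_lt] at hlt
      obtain ⟨l1, l2⟩ := hlt
      have l3 : 4 * (fy p e' ((c, r), k) + s) = 4 * Y := by rw [hY]
      cases k <;> simp only [fy] at l1 l2 hY <;> generalize p.S * b1 = B at * <;>
        generalize p.S * r = Z at * <;> omega
    clear hlt
    cases k <;> simp only [fy, lvW, sgW] at hY ⊢ <;>
      rcases htri with ⟨_, hc⟩ | hc | hc | ⟨_, hc⟩ <;>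
      first
        | (rw [hc, eS] at hY; generalize p.S * b1 = B at *; omega)
        | (rw [hc] at hY; generalize p.S * b1 = B at *; omega)
        | (generalize p.S * b1 = B at *; generalize p.S * r = Z at *; omega)
  · have e0 : pv2 h u ((a1, b1), Ke.NW) = ((a1, b1), Ke.T) := by
      simp only [pv2, hu, if_false]
    obtain ⟨t0, t1⟩ := htt ((a1, b1), Ke.T)
    have e1 : prW p e h u tt ((a1, b1), Ke.NW) =
        2 * (p.S * b1 + 2 * e + (p.S * b1 + e) + 2 * p.q) + 1 := by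
      simp only [prW, e0, fy]
    rw [e1, e0] at hlt
    rw [e0]
    generalize tt ((a1, b1), Ke.T) = t at *
    simp only [fy] at hlt
    obtain ⟨Y, hY⟩ : ∃ Y : ℤ, fy p e' ((c, r), k) + s = Y := ⟨_, rfl⟩
    have hY2 : p.S * b1 + e + 2 * p.q - t < Y ∧ Y < p.S * b1 + 2 * e + t := by
      have hneg : 2 * (p.S * b1 + 2 * e + (p.S * b1 + e) + 2 * p.q) + 1 -
          4 * (p.S * b1 + 2 * e + t) < 0 := by
        generalize p.S * b1 = B at *
        omega
      rw [abs_of_neg hneg, abs_lt] at hlt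
      obtain ⟨l1, l2⟩ := hlt
      have l3 : 4 * (fy p e' ((c, r), k) + s) = 4 * Y := by rw [hY]
      cases k <;> simp only [fy] at l1 l2 hY <;> generalize p.S * b1 = B at * <;>
        generalize p.S * r = Z at * <;> omega
    clear hlt
    cases k <;> simp only [fy, lvW, sgW] at hY ⊢ <;>
      rcases htri with ⟨_, hc⟩ | hc | hc | ⟨_, hc⟩ <;>
      first
        | (rw [hc, eS] at hY; generalize p.S * b1 = B at *; omega)
        | (rw [hc] at hY; generalize p.S * b1 = B at *; omega)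
        | (generalize p.S * b1 = B at *; generalize p.S * r = Z at *; omega)

end Pool.NTC
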