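import Pool.Agent.H82.NTC.Stmts

/-!
# Board `ntb`, row SAM2: the boundary of the ribbon of a tree is one closed curve
-/

set_option autoImplicit false

namespace Pool.NTC

open Pool.NET

theorem sam2_thm (hELB : ELB_S) : SAM2_S := by
  classical
  intro N h u hfin hHN hUN hTr D hD
  have nSE1 : ∀ v ∈ N, h v → ((v, Ke.SE) ∈ D ↔ (v, Ke.J2) ∈ D) := by
    intro v hv hh
    have e := hD (v, Ke.SE) hv
    simpa only [nx2, hh, if_true] using e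
  have nSE0 : ∀ v ∈ N, ¬ h v → ((v, Ke.SE) ∈ D ↔ (v, Ke.R) ∈ D) := by
    intro v hv hh
    have e := hD (v, Ke.SE) hv
    simpa only [nx2, hh, if_false] using e
  have nJ2 : ∀ v ∈ N, h v → ((v, Ke.J2) ∈ D ↔ ((v.1 + 1, v.2), Ke.J3) ∈ D) :=
    fun v hv hh => hD (v, Ke.J2) ⟨hv, hh⟩
  have nJ31 : ∀ v ∈ N, u (v.1, v.2 - 1) → ((v, Ke.J3) ∈ D ↔ ((v.1, v.2 - 1), Ke.NW) ∈ D) := by
    intro v hv hh
    have e := hD (v, Ke.J3) hv
    simpa only [nx2, hh, if_true] using e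
  have nJ30 : ∀ v ∈ N, ¬ u (v.1, v.2 - 1) → ((v, Ke.J3) ∈ D ↔ (v, Ke.B) ∈ D) := by
    intro v hv hh
    have e := hD (v, Ke.J3) hv
    simpa only [nx2, hh, if_false] using e
  have nL : ∀ v ∈ N, ¬ h (v.1 - 1, v.2) → ((v, Ke.L) ∈ D ↔ (v, Ke.J3) ∈ D) :=
    fun v hv hh => hD (v, Ke.L) ⟨hv, hh⟩
  have nNW1 : ∀ v ∈ N, h (v.1 - 1, v.2) → ((v, Ke.NW) ∈ D ↔ (v, Ke.J4) ∈ D) := by
    intro v hv hh
    have e := hD (v, Ke.NW) hv
    simpa only [nx2, hh, if_true] using e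
  have nNW0 : ∀ v ∈ N, ¬ h (v.1 - 1, v.2) → ((v, Ke.NW) ∈ D ↔ (v, Ke.L) ∈ D) := by
    intro v hv hh
    have e := hD (v, Ke.NW) hv
    simpa only [nx2, hh, if_false] using e
  have nJ4 : ∀ v ∈ N, h (v.1 - 1, v.2) → ((v, Ke.J4) ∈ D ↔ ((v.1 - 1, v.2), Ke.J1) ∈ D) :=
    fun v hv hh => hD (v, Ke.J4) ⟨hv, hh⟩
  have nJ11 : ∀ v ∈ N, u v → ((v, Ke.J1) ∈ D ↔ ((v.1, v.2 + 1), Ke.SE) ∈ D) := by
    intro v hv hh
    have e := hD (v, Ke.J1) hv
    simpa only [nx2, hh, if_true] using e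
  have nJ10 : ∀ v ∈ N, ¬ u v → ((v, Ke.J1) ∈ D ↔ (v, Ke.T) ∈ D) := by
    intro v hv hh
    have e := hD (v, Ke.J1) hv
    simpa only [nx2, hh, if_false] using e
  have nR : ∀ v ∈ N, ¬ h v → ((v, Ke.R) ∈ D ↔ (v, Ke.J1) ∈ D) :=
    fun v hv hh => hD (v, Ke.R) ⟨hv, hh⟩
  have nT : ∀ v ∈ N, ¬ u v → ((v, Ke.T) ∈ D ↔ (v, Ke.NW) ∈ D) :=
    fun v hv hh => hD (v, Ke.T) ⟨hv, hh⟩
  have nB : ∀ v ∈ N, ¬ u (v.1, v.2 - 1) → ((v, Ke.B) ∈ D ↔ (v, Ke.SE) ∈ D) :=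
    fun v hv hh => hD (v, Ke.B) ⟨hv, hh⟩
  have key := hELB N h u hfin hHN hUN hTr (fun v => (v, Ke.NW) ∈ D) (fun v => (v, Ke.J1) ∈ D)
    (fun v => (v, Ke.J3) ∈ D) (fun v => (v, Ke.SE) ∈ D)
    (by
      intro v hv hh
      obtain ⟨_, h2⟩ := hHN v hh
      have hh' : h ((v.1 + 1) - 1, v.2) := by
        simpa only [add_sub_cancel_right, Prod.mk.eta] using hh
      constructor
      · have e1 := nNW1 (v.1 + 1, v.2) h2 hh'
        have e2 := nJ4 (v.1 + 1, v.2) h2 hh'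
        simp only [add_sub_cancel_right, Prod.mk.eta] at e1 e2
        exact (e1.trans e2).symm
      · exact (nSE1 v hv hh).trans (nJ2 v hv hh))
    (by
      intro v hv hh
      exact ((nSE0 v hv hh).trans (nR v hv hh)).symm)
    (by
      intro v hv hh
      exact (nNW0 v hv hh).trans (nL v hv hh))
    (by
      intro v hv hh
      constructor
      · exact nJ11 v hv hh
      · have h2 : (v.1, v.2 + 1) ∈ N := (hUN v hh).1 hv
        have hh' : u (v.1, (v.2 + 1) - 1) := by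
          simpa only [add_sub_cancel_right, Prod.mk.eta] using hh
        have e1 := nJ31 (v.1, v.2 + 1) h2 hh'
        simp only [add_sub_cancel_right, Prod.mk.eta] at e1
        exact e1.symm)
    (by
      intro v hv hh
      exact (nJ10 v hv hh).trans (nT v hv hh))
    (by
      intro v hv hh
      exact (nJ30 v hv hh).trans (nB v hv hh))
  have all : ∀ a, OK2 N h u a → a.1 ∈ N ∧ ∀ w ∈ N, (a ∈ D ↔ (w, Ke.NW) ∈ D) := by
    rintro ⟨v, k⟩ ha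
    cases k with
    | NW => exact ⟨ha, fun w hw => (key v ha w hw).1⟩
    | SE => exact ⟨ha, fun w hw => (key v ha w hw).2.2.2⟩
    | R => exact ⟨ha.1, fun w hw => (nR v ha.1 ha.2).trans (key v ha.1 w hw).2.1⟩
    | T => exact ⟨ha.1, fun w hw => (nT v ha.1 ha.2).trans (key v ha.1 w hw).1⟩
    | L => exact ⟨ha.1, fun w hw => (nL v ha.1 ha.2).trans (key v ha.1 w hw).2.2.1⟩
    | B => exact ⟨ha.1, fun w hw => (nB v ha.1 ha.2).trans (key v ha.1 w hw).2.2.2⟩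
    | J1 => exact ⟨ha, fun w hw => (key v ha w hw).2.1⟩
    | J3 => exact ⟨ha, fun w hw => (key v ha w hw).2.2.1⟩
    | J2 =>
      exact ⟨ha.1, fun w hw => (nJ2 v ha.1 ha.2).trans (key _ (hHN v ha.2).2 w hw).2.2.1⟩
    | J4 =>
      exact ⟨ha.1, fun w hw => (nJ4 v ha.1 ha.2).trans (key _ (hHN _ ha.2).1 w hw).2.1⟩
  intro a b ha hb
  obtain ⟨haN, haD⟩ := all a ha
  obtain ⟨_, hbD⟩ := all b hb
  exact (haD a.1 haN).trans (hbD a.1 haN).symm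

end Pool.NTC
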